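import Mathlib
import Pool.Agent.L7h19.IS.Stm2

/-!
# Project IT (helper19, MP_157626_nt): families `y² = x (x² + a(t) x + b(t))`, where `b` and
`c = a² - 4 b` are squarefree, with common factors

Each large prime `p` divides exactly one of the values `f_j(t)` (at most); `iB j`: `f_j ∣ b`, `iC j`:
`f_j ∣ c`. If both, then `p ∣ a(t)` (type III).
-/

set_option autoImplicit false

namespace Pool.Agent.L7h19.IT

open Finset Polynomial Pool.Agent.W262.RK Pool.Agent.W307.RT Pool.Agent.L7h19.RP Pool.Agent.L7h19.IS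
open Pool.Agent.L7h19.RP.AT (gm)

/-- the symbol `(q / p)`, and the given sign `ε p` if `q = p` -/
def lam (ε : ℕ → ℤ) (p q : ℕ) : ℤ := if q = p then ε p else jacobiSym (q : ℤ) p

/-- the number of the divisors `d` of `m` with `∏_{q ∣ d} lam ε p q = 1` for all `p ∣ n` -/
def N3 (ε : ℕ → ℤ) (m n : ℕ) : ℕ :=
  (m.divisors.filter (fun d : ℕ => ∀ p ∈ n.primeFactors, ∏ q ∈ d.primeFactors, lam ε p q = 1)).card

/-- **S_DES3**: generalizes `S_DES` (`Pool.Agent.L7h56.IS.s_DES`): now `m` and `n` may have common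
prime factors `p`; then `p ∣ a`, `p` divides `b` and `c = a² - 4 b` exactly once. The condition at such
`p` for `d ∣ b` (`N² = d M⁴ + a M² e² + (b / d) e⁴`): `(d / p) = 1` if `p ∤ d`, and `((b / d) / p) = 1`
if `p ∣ d`; for `d = g d₁`, `d₁ ∣ m`, `g` prime to `m` this is `∏_{q ∣ d₁} lam ε p q = (g / p)` with
`ε p = ((b / p) / p)` in both cases. The dual curve: `(-2 a, c)` instead of `(a, b)`, with
`ε' p = ((c / p) / p)`. -/
def S_DES3 : Prop := ∀ (a b : ℤ) (m n : ℕ) (ε ε' : ℕ → ℤ), b ≠ 0 → a ^ 2 - 4 * b ≠ 0 → Odd m →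
  Odd n → Squarefree m → Squarefree n →
  (∀ p : ℕ, p.Prime → p ∣ m → (p : ℤ) ∣ b ∧ ¬ (p : ℤ) ^ 2 ∣ b ∧
    (p ∣ n ∨ ¬ (p : ℤ) ∣ a ^ 2 - 4 * b)) →
  (∀ p : ℕ, p.Prime → p ∣ n → (p : ℤ) ∣ a ^ 2 - 4 * b ∧ ¬ (p : ℤ) ^ 2 ∣ a ^ 2 - 4 * b ∧
    (p ∣ m ∨ ¬ (p : ℤ) ∣ b)) →
  (∀ p : ℕ, p.Prime → p ∣ m → p ∣ n →
    ε p = jacobiSym (b / p) p ∧ ε' p = jacobiSym ((a ^ 2 - 4 * b) / p) p) →
  2 ^ Module.finrank ℤ (EI a b).toAffine.Point ≤
    (2 ^ ((b.natAbs.primeFactors.filter (fun p => ¬ p ∣ m)).card + 1) * N3 ε m n) *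
    (2 ^ (((a ^ 2 - 4 * b).natAbs.primeFactors.filter (fun p => ¬ p ∣ n)).card + 1) * N3 ε' n m)

/-- the signs given by the set `E` -/
def eE (E : Finset ℕ) (p : ℕ) : ℤ := if p ∈ E then -1 else 1

/-- the signs for the dual curve: `c / p ≡ -4 b / p` modulo `p` -/
def eE' (E : Finset ℕ) (p : ℕ) : ℤ := eE E p * jacobiSym (-1) p

/-- the majorant -/
noncomputable def G3 (E : Finset ℕ) (m n : ℕ) : ℝ := (N3 (eE E) m n : ℝ) * (N3 (eE' E) n m : ℝ) /
  (2 : ℝ) ^ |((m.primeFactors.card : ℕ) : ℝ) - ((n.primeFactors.card : ℕ) : ℝ)|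

variable {J : Type} [Fintype J] [DecidableEq J]

/-- the product of the parts with the mark -/
def pP (P : J → Bool) (s : J → ℕ) : ℕ := ∏ j ∈ univ.filter (fun j => P j = true), s j

/-- **S_RK3**: the bound for values, from `S_DES3` with `m = pP iB (S1 z y x)`,
`n = pP iC (S1 z y x)`. Generalizes `S_RK` (`Pool.Agent.L7h89.IS.rk_of`; there the bound is for the
square root). -/
def S_RK3 : Prop := ∀ (J : Type) [Fintype J] [DecidableEq J] (iB iC : J → Bool) (a β γ : ℤ)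
  (x : J → ℤ) (z y X k D : ℕ) (E : Finset ℕ), (∀ j, iB j = true ∨ iC j = true) → 2 ≤ z → Gd z x →
  β ≠ 0 → γ ≠ 0 → (∀ p : ℕ, p.Prime → z < p → ¬ (p : ℤ) ∣ β ∧ ¬ (p : ℤ) ∣ γ) →
  a ^ 2 - 4 * (β * ∏ j ∈ univ.filter (fun j => iB j = true), x j) =
    γ * ∏ j ∈ univ.filter (fun j => iC j = true), x j →
  (∀ j, (x j).natAbs ≤ X ^ D) → 1 ≤ X → 1 ≤ y → X < (y + 1) ^ k →
  (∀ j (p : ℕ), iB j = true → iC j = true → p.Prime → p ∣ S1 z y x j →
    (p ∈ E ↔ jacobiSym (β * (∏ l ∈ univ.filter (fun l => iB l = true ∧ l ≠ j), x l) * (x j / p)) p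
      = -1)) →
  (2 : ℝ) ^ ((Module.finrank ℤ (EI a (β * ∏ j ∈ univ.filter (fun j => iB j = true), x j)).toAffine.Point :
      ℕ) - |((om (β * ∏ j ∈ univ.filter (fun j => iB j = true), x j) : ℕ) : ℝ) -
        ((om (γ * ∏ j ∈ univ.filter (fun j => iC j = true), x j) : ℕ) : ℝ)| : ℝ) ≤
    16 ^ (z + 2) * (16 ^ (D * Fintype.card J)) ^ k * 16 ^ (∑ j, (S2 z y x j).primeFactors.card) *
      G3 E (pP iB (S1 z y x)) (pP iC (S1 z y x))

/-- the primes of the common factors -/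
def PW (iB iC : J → Bool) (s : J → ℕ) : Finset ℕ :=
  (∏ j ∈ univ.filter (fun j => iB j = true ∧ iC j = true), s j).primeFactors

/-- the nontrivial part of the character sum for `N3 ε m n` -/
noncomputable def R3 (ε : ℕ → ℤ) (m n : ℕ) : ℝ :=
  (∑ d ∈ m.divisors, ∑ e ∈ n.divisors.erase 1,
    ∏ p ∈ e.primeFactors, ∏ q ∈ d.primeFactors, (lam ε p q : ℝ)) / 2 ^ n.primeFactors.card

/-- labels `(j, (v, x), h)`: `v`: the prime divides `d`; `x`: it divides `e`; `h` is arbitrary -/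
def vA (iB iC : J → Bool) (i : J × (Bool × Bool) × Bool) : Prop :=
  (i.2.1.1 = true → iB i.1 = true) ∧ (i.2.1.2 = true → iC i.1 = true) ∧
    ¬ (i.2.1.1 = true ∧ i.2.1.2 = true)

instance (iB iC : J → Bool) : DecidablePred (vA iB iC) := fun i => by
  unfold vA
  infer_instance

/-- the symbols -/
def LA (i k : J × (Bool × Bool) × Bool) : Bool := decide (i ≠ k) && (i.2.1.1 && k.2.1.2)

/-- the weights -/
noncomputable def wA (iC : J → Bool) (i : J × (Bool × Bool) × Bool) : ℝ :=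
  if iC i.1 = true then 1 / 4 else 1 / 2

/-- **S_EXP3**: the expansion of the average over the signs `E` (`θ` fixed). Each prime which divides
`s j` gets a label `(j, (v, x), h)`: `v = true` if it divides `d ∣ pP iB s`, `x = true` if it
divides `e ∣ pP iC s`, `h` arbitrary (this splits the weights `1`, `1 / 2` into two halves). The
average over the signs `E` kills the terms with a prime which divides `d` and `e`. Compare
`Pool.Agent.L7h65.IS.s_EXP`. -/
def S_EXP3 : Prop := ∀ (J : Type) [Fintype J] [DecidableEq J] (iB iC : J → Bool) (f : J → ℤ[X])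
  (θ : ℕ → ℤ) (c z y : ℕ), (∀ j, iB j = true ∨ iC j = true) → (∀ p, θ p = 1 ∨ θ p = -1) → 2 ≤ z →
  c < z →
  ∑ s ∈ Tup J z y, ((1 / 2) ^ (PW iB iC s).card * ∑ E ∈ (PW iB iC s).powerset,
      R3 (fun p => eE E p * θ p) (pP iB s) (pP iC s)) * ∏ j, gm (gaw (f j) 1 c) (s j) =
  ∑ d ∈ (Tup (J × (Bool × Bool) × Bool) z y).filter (fun d => (∀ i, d i ≠ 1 → vA iB iC i) ∧
      ∃ i : J × (Bool × Bool) × Bool, i.2.1.2 = true ∧ d i ≠ 1),
    (∏ i : J × (Bool × Bool) × Bool, gm (gaw (f i.1) (wA iC i) c) (d i)) * Sym LA (fun _ => 1) d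

/-- labels `(j, (v, x), (v', x'))` for the product -/
def vB (iB iC : J → Bool) (i : J × (Bool × Bool) × (Bool × Bool)) : Prop :=
  (i.2.1.1 = true → iB i.1 = true) ∧ (i.2.1.2 = true → iC i.1 = true) ∧
    (i.2.2.1 = true → iC i.1 = true) ∧ (i.2.2.2 = true → iB i.1 = true) ∧
    (i.2.1.1 && i.2.1.2) = (i.2.2.1 && i.2.2.2)

instance (iB iC : J → Bool) : DecidablePred (vB iB iC) := fun i => by
  unfold vB
  infer_instance

/-- the symbols -/
def LB (i k : J × (Bool × Bool) × (Bool × Bool)) : Bool :=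
  decide (i ≠ k) && xor (i.2.1.1 && k.2.1.2) (i.2.2.1 && k.2.2.2)

/-- the weights -/
noncomputable def wB (iB iC : J → Bool) (i : J × (Bool × Bool) × (Bool × Bool)) : ℝ :=
  if iB i.1 = true ∧ iC i.1 = true then 1 / 4 else 1 / 2

/-- the weights, with the sign `(-1 / p)` for the label `((1, 1), (1, 1))` -/
noncomputable def bB (iB iC : J → Bool) (f : J → ℤ[X]) (c : ℕ)
    (i : J × (Bool × Bool) × (Bool × Bool)) (p : ℕ) : ℝ :=
  (if i.2 = ((true, true), (true, true)) then ((jacobiSym (-1) p : ℤ) : ℝ) else 1) *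
    gaw (f i.1) (wB iB iC i) c p

/-- **S_EXP4**: the expansion of the average over the signs `E` of the product
`R3 (eE E) m n * R3 (eE' E) n m`, `m = pP iB s`, `n = pP iC s`, which is
`2 ^ (- ω(m) - ω(n)) ∑_{d ∣ m, e ∣ n, e ≠ 1} ∑_{d' ∣ n, e' ∣ m, e' ≠ 1}` of products of symbols. The
label of a prime: `v`: it divides `d`; `x`: it divides `e`; `v'`: it divides `d'`; `x'`: it divides
`e'`. The average over the signs gives the condition `v x = v' x'` and the sign `(-1 / p)` if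
`v = x = v' = x' = 1`; for two primes with the same label the symbols cancel. Compare
`Pool.Agent.L7h65.IS.s_EXP2`. -/
def S_EXP4 : Prop := ∀ (J : Type) [Fintype J] [DecidableEq J] (iB iC : J → Bool) (f : J → ℤ[X])
  (c z y : ℕ), (∀ j, iB j = true ∨ iC j = true) → 2 ≤ z → c < z →
  ∑ s ∈ Tup J z y, ((1 / 2) ^ (PW iB iC s).card * ∑ E ∈ (PW iB iC s).powerset,
      R3 (eE E) (pP iB s) (pP iC s) * R3 (eE' E) (pP iC s) (pP iB s)) *
        ∏ j, gm (gaw (f j) 1 c) (s j) =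
  ∑ d ∈ (Tup (J × (Bool × Bool) × (Bool × Bool)) z y).filter (fun d =>
      (∀ i, d i ≠ 1 → vB iB iC i) ∧
      (∃ i : J × (Bool × Bool) × (Bool × Bool), i.2.1.2 = true ∧ d i ≠ 1) ∧
      ∃ i : J × (Bool × Bool) × (Bool × Bool), i.2.2.2 = true ∧ d i ≠ 1),
    (∏ i : J × (Bool × Bool) × (Bool × Bool), gm (bB iB iC f c i) (d i)) * Sym LB (fun _ => 1) d

end Pool.Agent.L7h19.IT
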