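import Mathlib
import Pool.Agent.L7h19.IS.Cat2
import Pool.Agent.L7h19.IS.Maj

/-!
# Project IT: the general upper bound for sums over labels
-/

set_option autoImplicit false
set_option linter.unusedSectionVars false

namespace Pool.Agent.L7h19.IT

open Finset Polynomial Pool.Agent.W262.RK Pool.Agent.L7h19.RP Pool.Agent.L7h19.IS
open Pool.Agent.H474R2.PG (rho)
open Pool.Agent.L7h19.RP.AT (gm hq BWg)

/-- the weights with the sign `(-1 / p)` if `σ` -/
noncomputable def sgw (σ : Bool) (f : ℤ[X]) (w : ℝ) (c p : ℕ) : ℝ :=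
  (if σ = true then ((jacobiSym (-1) p : ℤ) : ℝ) else 1) * gaw f w c p

lemma jm_x4 {p : ℕ} (hp : p.Prime) (h2 : 2 < p) : ((jacobiSym (-1) p : ℤ) : ℝ) = x4 true p := by
  have hodd : Odd p := hp.odd_of_ne_two (by omega)
  unfold x4
  rw [if_pos rfl, jacobiSym.at_neg_one hodd]

lemma jm_sq {p : ℕ} (hp : p.Prime) (h2 : 2 < p) :
    ((jacobiSym (-1) p : ℤ) : ℝ) = 1 ∨ ((jacobiSym (-1) p : ℤ) : ℝ) = -1 := by
  have hg : (-1 : ℤ).gcd p = 1 := by simp
  rcases jacobiSym.eq_one_or_neg_one hg with h | h <;> rw [h]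
  · left; norm_num
  · right; norm_num

lemma x4_mul {p : ℕ} (hp : p.Prime) (h2 : 2 < p) (s : Bool) :
    x4 true p * x4 s p = x4 (!s) p := by
  have h1 := jm_x4 hp h2
  have h3 := jm_sq hp h2
  cases s with
  | false => unfold x4; simp
  | true =>
    rw [← h1, Bool.not_true]
    have h4 : x4 false p = 1 := by unfold x4; simp
    rw [h4]
    rcases h3 with h | h <;> rw [h] <;> norm_num

theorem genM (hUp : StUp) (hBW : StBW) (hFr : StFree) {J : Type} [Fintype J] [DecidableEq J]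
    (f : J → ℤ[X]) (hf : ∀ j, Irreducible (f j)) (hd : ∀ j, 0 < (f j).natDegree) (c : ℕ)
    {ι : Type} [Fintype ι] [DecidableEq ι] (π : ι → J) (w : ι → ℝ)
    (hw : ∀ i, 0 < w i ∧ w i ≤ 1 / 2) (σ : ι → Bool) (L : ι → ι → Bool) (hL : ∀ i, L i i = false)
    (Q : Finset ι → Prop) [DecidablePred Q] (K : ℝ) (hK0 : 0 ≤ K)
    (hK : ∀ U S : Finset ι, Disjoint U S → (∀ i ∈ U, ∀ j ∈ U, L i j = L j i) → Q (U ∪ S) →
      ∑ i ∈ UL L U S, w i ≤ K ∧ (S.Nonempty → ∑ i ∈ UL L U S, w i < K)) :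
    ∃ z0 : ℕ, ∀ z, z0 ≤ z → ∃ C : ℝ, ∀ y, z < y →
      |∑ d ∈ (Tup ι z y).filter (fun d => Q (univ.filter (fun i => d i ≠ 1))),
        (∏ i, gm (sgw (σ i) (f (π i)) (w i) c) (d i)) * Sym L (fun _ => 1) d| ≤
        C * (Real.log y) ^ K := by
  classical
  set M : ℕ := Fintype.card ι with hM
  set G : ℕ := ∑ j, (f j).natDegree with hG
  obtain ⟨C2, E2, hC2, hbw⟩ := hBW (G : ℝ) (M : ℝ) (Nat.cast_nonneg _)
  obtain ⟨δ, hδ, _, hδK⟩ := Pool.Agent.L7h19.RP.AT.exists_gap w (fun a => (hw a).1) K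
  set A : ℕ := 6 * (M + 2 * E2) with hA
  set ε : ℝ := δ / 2 / (A * (M : ℝ) ^ 2 + 1) with hε
  have hden : (0 : ℝ) < A * (M : ℝ) ^ 2 + 1 := by positivity
  have hε0 : 0 < ε := by positivity
  have hεA : (A : ℝ) * (ε * (M : ℝ) ^ 2) ≤ δ / 2 := by
    have e1 : (A : ℝ) * (ε * (M : ℝ) ^ 2) = δ / 2 * ((A * (M : ℝ) ^ 2) / (A * (M : ℝ) ^ 2 + 1)) := by
      rw [hε]
      field_simp
    rw [e1]
    have e2 : (A * (M : ℝ) ^ 2) / (A * (M : ℝ) ^ 2 + 1) ≤ 1 := by
      rw [div_le_one hden]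
      linarith
    have e3 : 0 ≤ δ / 2 := by positivity
    calc δ / 2 * ((A * (M : ℝ) ^ 2) / (A * (M : ℝ) ^ 2 + 1)) ≤ δ / 2 * 1 :=
          mul_le_mul_of_nonneg_left e2 e3
      _ = δ / 2 := mul_one _
  set B : ℕ := 2 * (M * G) with hB
  choose z1 hz1 using fun a : ι =>
    hUp (f (π a)) 1 (w a) ε c (hf _) (hd _) (not_dvd_one (hf _)) (hw a).1 (hw a).2 hε0
  choose z2 hz2 using fun a : ι => stFull (f (π a)) (w a) c B (hf _) (hd _) (hw a).1 (hw a).2
  choose Br hBr using fun j : J => Pool.Agent.H474R2.PG.rho_le (f j) (hf j).ne_zero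
  refine ⟨∑ a, z1 a + ∑ a, z2 a + 2 * (M * G) + ∑ j, Br j + (2 * c + 4), fun z hz => ?_⟩
  have hz1' : ∀ a, z1 a ≤ z := fun a => (le_sum_nat z1 a).trans (by omega)
  have hz2' : ∀ a, z2 a ≤ z := fun a => (le_sum_nat z2 a).trans (by omega)
  have hBr' : ∀ j, Br j ≤ z := fun j => (le_sum_nat Br j).trans (by omega)
  choose C1 hC1 using fun a : ι => hz1 a z (hz1' a)
  choose C3 hC3 using fun a : ι => hz2 a z (hz2' a)
  set C : ℝ := 1 + ∑ a, |C3 a| with hC
  set D1 : ℝ := ∑ a, |C1 a| with hD1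
  have hs1 : 0 ≤ ∑ a, |C1 a| := sum_nonneg fun _ _ => abs_nonneg _
  have hs3 : 0 ≤ ∑ a, |C3 a| := sum_nonneg fun _ _ => abs_nonneg _
  have hCC1 : ∀ a, C1 a ≤ D1 := fun a => le_sum_abs C1 a
  have hCC3 : ∀ a, C3 a ≤ C := fun a => by have := le_sum_abs C3 a; linarith
  have hgaw0 : ∀ (a : ι) (p : ℕ), p.Prime → z < p → 0 ≤ gaw (f (π a)) (w a) c p ∧
      gaw (f (π a)) (w a) c p ≤ (G : ℝ) / p := by
    intro a p hp hzp
    have e1 := (gaw_bd (d := (f (π a)).natDegree) (w := w a) (hw a).1 (hw a).2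
      (by omega : 2 * c + 2 ≤ p) (hBr (π a) p hp (by have := hBr' (π a); omega)))
    refine ⟨e1.1, e1.2.1.trans ?_⟩
    refine div_le_div_of_nonneg_right ?_ (Nat.cast_nonneg _)
    exact_mod_cast le_sum_nat (fun j => (f j).natDegree) (π a)
  have hBd : Pool.Agent.L7h19.RP.AT.Bd (fun a : ι => sgw (σ a) (f (π a)) (w a) c)
      (fun a => gaw (f (π a)) (w a) c) w z B C := by
    refine ⟨fun a => (hw a).1, fun a => (hw a).2.trans (by norm_num), by omega, by linarith,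
      fun a p hp hzp => ?_, fun a y hy => ?_,
      fun a y V hy hV => ?_, fun a y Y hy hY => ?_⟩
    · unfold sgw
      rw [abs_mul, abs_of_nonneg (hgaw0 a p hp hzp).1]
      refine (mul_le_mul_of_nonneg_right ?_ (hgaw0 a p hp hzp).1).trans (le_of_eq (one_mul _))
      split_ifs
      · rcases jm_sq hp (by omega) with h | h <;> rw [h] <;> norm_num
      · norm_num
    · refine ((hC3 a).1 y hy).trans ?_
      exact mul_le_mul_of_nonneg_right (hCC3 a) (Real.rpow_nonneg (Real.log_natCast_nonneg _) _)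
    · refine ((hC3 a).2.1 y V hy hV).trans ?_
      exact mul_le_mul_of_nonneg_right (hCC3 a) (Real.rpow_nonneg (Real.log_natCast_nonneg _) _)
    · refine ((hC3 a).2.2 y Y hy hY).trans ?_
      exact mul_le_mul_of_nonneg_right (mul_le_mul_of_nonneg_right (hCC3 a) (Real.exp_pos _).le)
        (by positivity)
  have hHN : HH2 (fun a : ι => sgw (σ a) (f (π a)) (w a) c) w L Q K z A ε D1 δ := by
    refine ⟨hL, hK0, hK, hδ, hδK, hε0.le, hs1, hεA, ?_⟩
    intro a y r s hy hr hrs hrp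
    have h2 := hCC1 a
    have h1 : ∀ s' : Bool, ∑ p ∈ PS z y, gaw (f (π a)) (w a) c p * (Jr p r * x4 s' p) ≤
        ε * Real.log r + C1 a := fun s' => by
      refine le_trans (le_of_eq ?_) (hC1 a y r s' hy hr hrs hrp)
      exact sum_congr rfl fun p _ => by rw [bw_one]
    cases hσ : σ a with
    | false =>
      refine le_trans (le_of_eq ?_) ((h1 s).trans (by linarith))
      refine sum_congr rfl fun p _ => ?_
      unfold sgw
      simp
    | true =>
      refine le_trans (le_of_eq ?_) ((h1 (!s)).trans (by linarith))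
      refine sum_congr rfl fun p hp => ?_
      have hp' := mem_PS.1 hp
      have hp2 : 2 < p := by omega
      unfold sgw
      rw [if_pos rfl, jm_x4 hp'.2 hp2, ← x4_mul hp'.2 hp2 s]
      ring
  obtain ⟨C', hC'⟩ := at_h hFr hBd hC2 hbw (Nat.cast_nonneg _)
    (fun a p hp hzp => (hgaw0 a p hp hzp).2) (by
      have : 2 * (M * G) ≤ z := by omega
      exact_mod_cast this) (by
      have : 2 * (M * G) ≤ B := le_rfl
      exact_mod_cast this) le_rfl hHN
  exact ⟨C', fun y hy => hC' y hy⟩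

end Pool.Agent.L7h19.IT
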