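import Mathlib
import Pool.Agent.L7h19.IS.Cat2
import Pool.Agent.L7h19.IT.Stm

/-!
# Project IT: the combinatorial lemma for the first expansion
-/

set_option autoImplicit false
set_option linter.unusedSectionVars false

namespace Pool.Agent.L7h19.IT

open Finset Pool.Agent.L7h19.IS

variable {J : Type} [Fintype J] [DecidableEq J]

/-- the symplectic form -/
def om2 (a b : Bool × Bool) : Bool := xor (a.1 && b.2) (a.2 && b.1)

lemma om2_line : ∀ u x : Bool × Bool, u ≠ (false, false) → om2 u x = false →
    x = (false, false) ∨ x = u := by decide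

lemma LA_symm (i k : J × (Bool × Bool) × Bool) :
    (LA i k = LA k i) ↔ om2 i.2.1 k.2.1 = false := by
  by_cases h : i = k
  · subst h
    unfold om2
    rw [Bool.and_comm i.2.1.2 i.2.1.1]
    simp
  · have h' : k ≠ i := fun e => h e.symm
    unfold LA
    rw [decide_eq_true h, decide_eq_true h', Bool.true_and, Bool.true_and]
    unfold om2
    rcases i with ⟨j, ⟨a, b⟩, r⟩
    rcases k with ⟨l, ⟨a', b'⟩, r'⟩
    dsimp only
    clear h h'
    revert a b a' b'
    decide

lemma LA_self (i : J × (Bool × Bool) × Bool) : LA i i = false := by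
  unfold LA
  simp

/-- the condition on the support -/
def QA (iB iC : J → Bool) (U : Finset (J × (Bool × Bool) × Bool)) : Prop :=
  (∀ i ∈ U, vA iB iC i) ∧ ∃ i ∈ U, i.2.1.2 = true

instance (iB iC : J → Bool) : DecidablePred (QA iB iC) := fun U => by
  unfold QA
  infer_instance

lemma cardB : ((univ : Finset ((Bool × Bool) × Bool)).filter
    (fun x => x.1 = (false, false))).card = 2 := by decide

lemma cardD : ∀ u : Bool × Bool, ((univ : Finset ((Bool × Bool) × Bool)).filter
    (fun x => x.1 = (false, false) ∨ x.1 = u)).card ≤ 4 := by decide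

/-- **the combinatorial condition** -/
lemma combA (iB iC : J → Bool)
    (U S : Finset (J × (Bool × Bool) × Bool)) (hUS : Disjoint U S)
    (hU : ∀ i ∈ U, ∀ k ∈ U, LA i k = LA k i) (hQ : QA iB iC (U ∪ S)) :
    (∑ i ∈ UL LA U S, wA iC i) ≤ Fintype.card J ∧
      (S.Nonempty → (∑ i ∈ UL LA U S, wA iC i) < Fintype.card J) := by
  classical
  obtain ⟨hval, ⟨k, hk, hk1⟩⟩ := hQ
  set W := UL LA U S with hW
  have hWm : ∀ e, e ∈ W ↔ e ∈ U ∧ ∀ k ∈ S, LA e k = LA k e := fun e => by
    rw [hW]
    unfold UL
    simp only [mem_filter]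
  have hWU : ∀ e ∈ W, e ∈ U := fun e he => ((hWm e).1 he).1
  have hWH : ∀ e ∈ W, ∀ s ∈ U ∪ S, om2 e.2.1 s.2.1 = false := by
    intro e he s hs
    rw [← LA_symm]
    rcases mem_union.1 hs with h | h
    · exact hU e (hWU e he) s h
    · exact ((hWm e).1 he).2 s h
  have hWH' : ∀ e ∈ W, e ∈ U ∪ S := fun e he => mem_union_left _ (hWU e he)
  -- the fibres
  set c : J → Finset ((Bool × Bool) × Bool) := fun j => univ.filter (fun x => (j, x) ∈ W) with hc
  have hcm : ∀ j x, x ∈ c j ↔ (j, x) ∈ W := fun j x => by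
    rw [hc]
    simp
  set ω : J → ℝ := fun j => if iC j = true then 1 / 4 else 1 / 2 with hω
  have hsum : (∑ i ∈ W, wA iC i) = ∑ j, ω j * ((c j).card : ℝ) := by
    have e1 : (∑ i ∈ W, wA iC i) =
        ∑ i : J × (Bool × Bool) × Bool, if i ∈ W then wA iC i else 0 := by
      rw [← sum_filter]
      refine sum_congr ?_ fun _ _ => rfl
      ext i
      simp
    rw [e1, Fintype.sum_prod_type]
    refine sum_congr rfl fun j _ => ?_
    rw [hc]
    dsimp only
    rw [card_filter, Nat.cast_sum, mul_sum]
    refine sum_congr rfl fun x _ => ?_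
    by_cases h : (j, x) ∈ W <;> simp [h, wA, hω]
  have hJ : (Fintype.card J : ℝ) = ∑ _j : J, (1 : ℝ) := by
    rw [sum_const, card_univ, nsmul_eq_mul, mul_one]
  rw [hsum, hJ]
  have hkC : iC k.1 = true := (hval k hk).2.1 hk1
  have hwB : ∀ j, iC j = false → ω j = 1 / 2 := fun j hj => by rw [hω]; simp [hj]
  have hwC : ∀ j, iC j = true → ω j = 1 / 4 := fun j hj => by rw [hω]; simp [hj]
  by_cases hcase : ∃ e1 ∈ W, e1.2.1 ≠ (false, false)
  · obtain ⟨e1, he1, hn1⟩ := hcase
    set u := e1.2.1 with hu
    have hHD : ∀ s ∈ U ∪ S, s.2.1 = (false, false) ∨ s.2.1 = u := fun s hs =>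
      om2_line u s.2.1 hn1 (hWH e1 he1 s hs)
    have hux : u.2 = true := by
      rcases hHD k hk with h | h
      · rw [h] at hk1
        exact absurd hk1 (by decide)
      · rw [← h]; exact hk1
    -- for the class `B` only the zero vector
    have hzB : ∀ s ∈ U ∪ S, iC s.1 = false → s.2.1 = (false, false) := by
      intro s hs hsC
      rcases hHD s hs with h | h
      · exact h
      · exfalso
        have h1 := (hval s hs).2.1 (by rw [h]; exact hux)
        rw [h1] at hsC
        exact absurd hsC (by decide)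
    have hcB : ∀ j, iC j = false → c j ⊆ univ.filter (fun x => x.1 = (false, false)) := by
      intro j hj x hx
      rw [mem_filter]
      exact ⟨mem_univ _, hzB _ (hWH' _ ((hcm j x).1 hx)) hj⟩
    have hcC : ∀ j, c j ⊆ univ.filter (fun x => x.1 = (false, false) ∨ x.1 = u) := by
      intro j x hx
      rw [mem_filter]
      exact ⟨mem_univ _, hHD _ (hWH' _ ((hcm j x).1 hx))⟩
    have hle : ∀ j, ω j * ((c j).card : ℝ) ≤ 1 := by
      intro j
      cases hCj : iC j with
      | false =>
        rw [hwB j hCj]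
        have h1 := card_le_card (hcB j hCj)
        rw [cardB] at h1
        have : ((c j).card : ℝ) ≤ 2 := by exact_mod_cast h1
        linarith
      | true =>
        rw [hwC j hCj]
        have h1 := (card_le_card (hcC j)).trans (cardD u)
        have : ((c j).card : ℝ) ≤ 4 := by exact_mod_cast h1
        linarith
    refine ⟨sum_le_sum fun j _ => hle j, ?_⟩
    rintro ⟨s, hs⟩
    have hsH : s ∈ U ∪ S := mem_union_right _ hs
    have hsU : s ∉ U := fun h => disjoint_left.1 hUS h hs
    have hsc : s.2 ∉ c s.1 := fun h => hsU (hWU _ ((hcm s.1 s.2).1 h))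
    refine sum_lt_sum (fun j _ => hle j) ⟨s.1, mem_univ _, ?_⟩
    have hlt : ∀ T : Finset ((Bool × Bool) × Bool), c s.1 ⊆ T → s.2 ∈ T →
        (c s.1).card < T.card := fun T h1 h2 => card_lt_card ⟨h1, fun h => hsc (h h2)⟩
    cases hCj : iC s.1 with
    | false =>
      rw [hwB _ hCj]
      have h5 := hlt _ (hcB _ hCj) (by
        rw [mem_filter]
        exact ⟨mem_univ _, hzB s hsH hCj⟩)
      rw [cardB] at h5
      have : ((c s.1).card : ℝ) < 2 := by exact_mod_cast h5
      linarith
    | true =>
      rw [hwC _ hCj]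
      have h5 := hlt _ (hcC _) (by
        rw [mem_filter]
        exact ⟨mem_univ _, hHD s hsH⟩)
      have : ((c s.1).card : ℝ) < 4 := by exact_mod_cast lt_of_lt_of_le h5 (cardD u)
      linarith
  · push Not at hcase
    have hcB : ∀ j, c j ⊆ univ.filter (fun x => x.1 = (false, false)) := by
      intro j x hx
      rw [mem_filter]
      exact ⟨mem_univ _, hcase _ ((hcm j x).1 hx)⟩
    have hc2 : ∀ j, ((c j).card : ℝ) ≤ 2 := by
      intro j
      have h1 := card_le_card (hcB j)
      rw [cardB] at h1
      exact_mod_cast h1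
    have hle : ∀ j, ω j * ((c j).card : ℝ) ≤ 1 := by
      intro j
      have h1 := hc2 j
      cases hCj : iC j with
      | false => rw [hwB j hCj]; linarith
      | true => rw [hwC j hCj]; linarith
    have hfin := sum_lt_sum (s := univ) (fun j _ => hle j) ⟨k.1, mem_univ _, by
      rw [hwC _ hkC]
      have := hc2 k.1
      linarith⟩
    exact ⟨hfin.le, fun _ => hfin⟩

end Pool.Agent.L7h19.IT
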