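import Mathlib
import Pool.Agent.L7h19.IS.Cat2
import Pool.Agent.L7h19.IT.Stm

/-!
# Project IT: the combinatorial lemmas
-/

set_option autoImplicit false
set_option linter.unusedSectionVars false

namespace Pool.Agent.L7h19.IT

open Finset Pool.Agent.L7h19.IS

variable {J : Type} [Fintype J] [DecidableEq J]

/-- the vectors -/
abbrev V4 := (Bool × Bool) × (Bool × Bool)

/-- the zero vector -/
abbrev z4 : V4 := ((false, false), (false, false))

/-- the symplectic form -/
def om4 (a b : V4) : Bool :=
  xor (xor (a.1.1 && b.1.2) (a.1.2 && b.1.1)) (xor (a.2.1 && b.2.2) (a.2.2 && b.2.1))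

/-- the sum -/
def ad4 (a b : V4) : V4 := ((xor a.1.1 b.1.1, xor a.1.2 b.1.2), (xor a.2.1 b.2.1, xor a.2.2 b.2.2))

lemma om4_ad (u w k : V4) : om4 (ad4 u w) k = xor (om4 u k) (om4 w k) := by
  unfold om4 ad4
  rcases u with ⟨⟨a, b⟩, ⟨c, d⟩⟩
  rcases w with ⟨⟨a', b'⟩, ⟨c', d'⟩⟩
  rcases k with ⟨⟨a'', b''⟩, ⟨c'', d''⟩⟩
  dsimp only
  cases a'' <;> cases b'' <;> cases c'' <;> cases d'' <;> simp <;>
    revert a b c d a' b' c' d' <;> decide

lemma om4_comm (u w : V4) : om4 u w = om4 w u := by
  unfold om4
  rcases u with ⟨⟨a, b⟩, ⟨c, d⟩⟩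
  rcases w with ⟨⟨a', b'⟩, ⟨c', d'⟩⟩
  dsimp only
  revert a b c d a' b' c' d'
  decide

lemma om4_zero (k : V4) : om4 z4 k = false := by
  unfold om4
  rcases k with ⟨⟨a', b'⟩, ⟨c', d'⟩⟩
  dsimp only
  revert a' b' c' d'
  decide

lemma om4_self (k : V4) : om4 k k = false := by
  unfold om4
  rcases k with ⟨⟨a', b'⟩, ⟨c', d'⟩⟩
  dsimp only
  revert a' b' c' d'
  decide

/-- membership in the plane -/
def inD (u w x : V4) : Bool := x == z4 || x == u || x == w || x == ad4 u w

/-- auxiliary -/
def cond4 (u w x : V4) : Bool :=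
  u == z4 || w == z4 || u == w || om4 u w || om4 x u || om4 x w || inD u w x

lemma cond4_true : ∀ u w x : V4, cond4 u w x = true := by
  intro u
  rcases u with ⟨⟨a, b⟩, ⟨c, d⟩⟩
  cases a <;> cases b <;> cases c <;> cases d <;> decide

lemma mem_D {u w x : V4} (hu : u ≠ z4) (hw : w ≠ z4) (huw : u ≠ w) (h : om4 u w = false)
    (h1 : om4 x u = false) (h2 : om4 x w = false) :
    x = z4 ∨ x = u ∨ x = w ∨ x = ad4 u w := by
  have h0 := cond4_true u w x
  unfold cond4 inD at h0
  rw [h, h1, h2] at h0
  simp only [Bool.or_false, Bool.or_eq_true, beq_iff_eq] at h0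
  tauto

/-- the plane is isotropic -/
lemma D_iso {u w x k : V4} (hu : u ≠ z4) (hw : w ≠ z4) (huw : u ≠ w) (h : om4 u w = false)
    (h1 : om4 x u = false) (h2 : om4 x w = false) (h3 : om4 k u = false) (h4 : om4 k w = false) :
    om4 x k = false := by
  rcases mem_D hu hw huw h h1 h2 with rfl | rfl | rfl | rfl
  · exact om4_zero k
  · rw [om4_comm]; exact h3
  · rw [om4_comm]; exact h4
  · rw [om4_ad, om4_comm u k, om4_comm w k, h3, h4]
    rfl

/-- the vectors of the class `B` -/
def PB : Finset V4 := univ.filter (fun x => x.1.2 = false ∧ x.2.1 = false)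

/-- the vectors of the class `C` -/
def PC : Finset V4 := univ.filter (fun x => x.1.1 = false ∧ x.2.2 = false)

lemma PB_perp : ∀ k : V4, k.1.2 = true → (PB.filter (fun x => om4 x k = false)).card = 2 := by
  decide

lemma PC_perp : ∀ k : V4, k.2.2 = true → (PC.filter (fun x => om4 x k = false)).card = 2 := by
  decide

lemma PB_PC : ∀ u : V4, u ≠ z4 → u ∈ PB → u ∉ PC := by decide

lemma LB_symm (i k : J × (Bool × Bool) × (Bool × Bool)) :
    (LB i k = LB k i) ↔ om4 i.2 k.2 = false := by
  by_cases h : i = k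
  · subst h
    simp [om4_self]
  · have h' : k ≠ i := fun e => h e.symm
    unfold LB
    rw [decide_eq_true h, decide_eq_true h', Bool.true_and, Bool.true_and]
    unfold om4
    rcases i with ⟨j, ⟨a, b⟩, ⟨c, d⟩⟩
    rcases k with ⟨l, ⟨a', b'⟩, ⟨c', d'⟩⟩
    dsimp only
    clear h h'
    revert a b c d a' b' c' d'
    decide

lemma LB_self (i : J × (Bool × Bool) × (Bool × Bool)) : LB i i = false := by
  unfold LB
  simp

/-- the condition on the support -/
def Q4 (iB iC : J → Bool) (U : Finset (J × (Bool × Bool) × (Bool × Bool))) : Prop :=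
  (∀ i ∈ U, vB iB iC i) ∧ (∃ i ∈ U, i.2.1.2 = true) ∧ ∃ i ∈ U, i.2.2.2 = true

instance (iB iC : J → Bool) : DecidablePred (Q4 iB iC) := fun U => by
  unfold Q4
  infer_instance

/-- **the combinatorial condition** -/
lemma combB (iB iC : J → Bool)
    (U S : Finset (J × (Bool × Bool) × (Bool × Bool))) (hUS : Disjoint U S)
    (hU : ∀ i ∈ U, ∀ k ∈ U, LB i k = LB k i) (hQ : Q4 iB iC (U ∪ S)) :
    (∑ i ∈ UL LB U S, wB iB iC i) ≤ Fintype.card J ∧
      (S.Nonempty → (∑ i ∈ UL LB U S, wB iB iC i) < Fintype.card J) := by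
  classical
  obtain ⟨hval, ⟨k, hk, hk1⟩, ⟨i, hi, hi2⟩⟩ := hQ
  set W := UL LB U S with hW
  have hWm : ∀ e, e ∈ W ↔ e ∈ U ∧ ∀ k ∈ S, LB e k = LB k e := fun e => by
    rw [hW]
    unfold UL
    simp only [mem_filter]
  have hWU : ∀ e ∈ W, e ∈ U := fun e he => ((hWm e).1 he).1
  have hWH : ∀ e ∈ W, ∀ s ∈ U ∪ S, om4 e.2 s.2 = false := by
    intro e he s hs
    rw [← LB_symm]
    rcases mem_union.1 hs with h | h
    · exact hU e (hWU e he) s h
    · exact ((hWm e).1 he).2 s h
  have hWH' : ∀ e ∈ W, e ∈ U ∪ S := fun e he => mem_union_left _ (hWU e he)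
  -- the fibres
  set c : J → Finset V4 := fun j => univ.filter (fun x => (j, x) ∈ W) with hc
  have hcm : ∀ j x, x ∈ c j ↔ (j, x) ∈ W := fun j x => by
    rw [hc]
    simp
  set ω : J → ℝ := fun j => if iB j = true ∧ iC j = true then 1 / 4 else 1 / 2 with hω
  have hsum : (∑ i ∈ W, wB iB iC i) = ∑ j, ω j * ((c j).card : ℝ) := by
    have e1 : (∑ i ∈ W, wB iB iC i) =
        ∑ i : J × (Bool × Bool) × (Bool × Bool), if i ∈ W then wB iB iC i else 0 := by
      rw [← sum_filter]
      refine sum_congr ?_ fun _ _ => rfl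
      ext i
      simp
    rw [e1, Fintype.sum_prod_type]
    refine sum_congr rfl fun j _ => ?_
    rw [hc]
    dsimp only
    rw [card_filter, Nat.cast_sum, mul_sum]
    refine sum_congr rfl fun x _ => ?_
    by_cases h : (j, x) ∈ W <;> simp [h, wB, hω]
  have hcB : ∀ j, iC j = false → c j ⊆ PB.filter (fun x => om4 x k.2 = false) := by
    intro j hj x hx
    have hx' := (hcm j x).1 hx
    have hv := hval _ (hWH' _ hx')
    unfold vB at hv
    dsimp only at hv
    rw [mem_filter, PB, mem_filter]
    refine ⟨⟨mem_univ _, ?_, ?_⟩, hWH _ hx' k hk⟩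
    · by_contra h
      rw [Bool.not_eq_false] at h
      rw [hv.2.1 h] at hj
      exact absurd hj (by decide)
    · by_contra h
      rw [Bool.not_eq_false] at h
      rw [hv.2.2.1 h] at hj
      exact absurd hj (by decide)
  have hcC : ∀ j, iB j = false → c j ⊆ PC.filter (fun x => om4 x i.2 = false) := by
    intro j hj x hx
    have hx' := (hcm j x).1 hx
    have hv := hval _ (hWH' _ hx')
    unfold vB at hv
    dsimp only at hv
    rw [mem_filter, PC, mem_filter]
    refine ⟨⟨mem_univ _, ?_, ?_⟩, hWH _ hx' i hi⟩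
    · by_contra h
      rw [Bool.not_eq_false] at h
      rw [hv.1 h] at hj
      exact absurd hj (by decide)
    · by_contra h
      rw [Bool.not_eq_false] at h
      rw [hv.2.2.2.1 h] at hj
      exact absurd hj (by decide)
  have hJ : (Fintype.card J : ℝ) = ∑ _j : J, (1 : ℝ) := by
    rw [sum_const, card_univ, nsmul_eq_mul, mul_one]
  rw [hsum, hJ]
  have hkC : iC k.1 = true := (hval k hk).2.1 hk1
  have hiB : iB i.1 = true := (hval i hi).2.2.2.1 hi2
  have hwB : ∀ j, iC j = false → ω j = 1 / 2 := fun j hj => by rw [hω]; simp [hj]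
  have hwC : ∀ j, iB j = false → ω j = 1 / 2 := fun j hj => by rw [hω]; simp [hj]
  have hwW : ∀ j, iB j = true → iC j = true → ω j = 1 / 4 := fun j hj hj' => by
    rw [hω]; simp [hj, hj']
  have hleB : ∀ j, iC j = false → (c j).card ≤ 2 := fun j hj => by
    have := card_le_card (hcB j hj)
    rwa [PB_perp k.2 hk1] at this
  have hleC : ∀ j, iB j = false → (c j).card ≤ 2 := fun j hj => by
    have := card_le_card (hcC j hj)
    rwa [PC_perp i.2 hi2] at this
  by_cases hcase : ∃ e1 ∈ W, ∃ e2 ∈ W, e1.2 ≠ z4 ∧ e2.2 ≠ z4 ∧ e1.2 ≠ e2.2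
  · obtain ⟨e1, he1, e2, he2, hn1, hn2, hn12⟩ := hcase
    set D : Finset V4 := {z4, e1.2, e2.2, ad4 e1.2 e2.2} with hD
    have hDc : D.card ≤ 4 := Finset.card_le_four
    have h12 : om4 e1.2 e2.2 = false := hWH e1 he1 e2 (hWH' _ he2)
    have hHD : ∀ s ∈ U ∪ S, s.2 ∈ D := by
      intro s hs
      have h1 := hWH e1 he1 s hs
      have h2 := hWH e2 he2 s hs
      rw [om4_comm] at h1 h2
      rw [hD]
      simp only [mem_insert, mem_singleton]
      exact mem_D hn1 hn2 hn12 h12 h1 h2
    have hiso : ∀ s ∈ U ∪ S, ∀ s' ∈ U ∪ S, om4 s.2 s'.2 = false := by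
      intro s hs s' hs'
      have h1 := hWH e1 he1 s hs
      have h2 := hWH e2 he2 s hs
      have h3 := hWH e1 he1 s' hs'
      have h4 := hWH e2 he2 s' hs'
      rw [om4_comm] at h1 h2 h3 h4
      exact D_iso hn1 hn2 hn12 h12 h1 h2 h3 h4
    have hcD : ∀ j, c j ⊆ D := fun j x hx => hHD _ (hWH' _ ((hcm j x).1 hx))
    have hle : ∀ j, ω j * ((c j).card : ℝ) ≤ 1 := by
      intro j
      cases hCj : iC j with
      | false =>
        rw [hwB j hCj]
        have : ((c j).card : ℝ) ≤ 2 := by exact_mod_cast hleB j hCj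
        linarith
      | true =>
        cases hBj : iB j with
        | false =>
          rw [hwC j hBj]
          have : ((c j).card : ℝ) ≤ 2 := by exact_mod_cast hleC j hBj
          linarith
        | true =>
          rw [hwW j hBj hCj]
          have : ((c j).card : ℝ) ≤ 4 := by exact_mod_cast (card_le_card (hcD j)).trans hDc
          linarith
    refine ⟨sum_le_sum fun j _ => hle j, ?_⟩
    rintro ⟨s, hs⟩
    have hsH : s ∈ U ∪ S := mem_union_right _ hs
    have hsU : s ∉ U := fun h => disjoint_left.1 hUS h hs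
    have hsc : s.2 ∉ c s.1 := fun h => hsU (hWU _ ((hcm s.1 s.2).1 h))
    refine sum_lt_sum (fun j _ => hle j) ⟨s.1, mem_univ _, ?_⟩
    have hlt : ∀ T : Finset V4, c s.1 ⊆ T → s.2 ∈ T → (c s.1).card < T.card := fun T h1 h2 =>
      card_lt_card ⟨h1, fun h => hsc (h h2)⟩
    have hvs := hval s hsH
    unfold vB at hvs
    cases hCj : iC s.1 with
    | false =>
      rw [hwB _ hCj]
      have h5 := hlt _ (hcB _ hCj) (by
        rw [mem_filter, PB, mem_filter]
        refine ⟨⟨mem_univ _, ?_, ?_⟩, hiso s hsH k hk⟩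
        · by_contra h
          rw [Bool.not_eq_false] at h
          rw [hvs.2.1 h] at hCj
          exact absurd hCj (by decide)
        · by_contra h
          rw [Bool.not_eq_false] at h
          rw [hvs.2.2.1 h] at hCj
          exact absurd hCj (by decide))
      rw [PB_perp k.2 hk1] at h5
      have : ((c s.1).card : ℝ) < 2 := by exact_mod_cast h5
      linarith
    | true =>
      cases hBj : iB s.1 with
      | false =>
        rw [hwC _ hBj]
        have h5 := hlt _ (hcC _ hBj) (by
          rw [mem_filter, PC, mem_filter]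
          refine ⟨⟨mem_univ _, ?_, ?_⟩, hiso s hsH i hi⟩
          · by_contra h
            rw [Bool.not_eq_false] at h
            rw [hvs.1 h] at hBj
            exact absurd hBj (by decide)
          · by_contra h
            rw [Bool.not_eq_false] at h
            rw [hvs.2.2.2.1 h] at hBj
            exact absurd hBj (by decide))
        rw [PC_perp i.2 hi2] at h5
        have : ((c s.1).card : ℝ) < 2 := by exact_mod_cast h5
        linarith
      | true =>
        rw [hwW _ hBj hCj]
        have h5 := hlt _ (hcD _) (hHD s hsH)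
        have : ((c s.1).card : ℝ) < 4 := by exact_mod_cast lt_of_lt_of_le h5 hDc
        linarith
  · -- all nonzero vectors are equal
    have hu : ∃ u : V4, u ≠ z4 ∧ ∀ e ∈ W, e.2 = z4 ∨ e.2 = u := by
      by_cases h : ∃ e ∈ W, e.2 ≠ z4
      · obtain ⟨e, he, hne⟩ := h
        refine ⟨e.2, hne, fun e' he' => ?_⟩
        by_contra hcon
        push Not at hcon
        exact hcase ⟨e', he', e, he, hcon.1, hne, hcon.2⟩
      · push Not at h
        exact ⟨((true, false), (false, false)), by decide, fun e he => Or.inl (h e he)⟩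
    obtain ⟨u, hu0, hWu⟩ := hu
    have hcu : ∀ j, c j ⊆ {z4, u} := fun j x hx => by
      rw [mem_insert, mem_singleton]
      exact hWu _ ((hcm j x).1 hx)
    have hc2 : ∀ j, (c j).card ≤ 2 := fun j => (card_le_card (hcu j)).trans card_le_two
    have hle : ∀ j, ω j * ((c j).card : ℝ) ≤ 1 := by
      intro j
      have h1 : ((c j).card : ℝ) ≤ 2 := by exact_mod_cast hc2 j
      have h2 : ω j ≤ 1 / 2 := by
        rw [hω]
        dsimp only
        split_ifs <;> norm_num
      have h3 : 0 ≤ ω j := by
        rw [hω]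
        dsimp only
        split_ifs <;> norm_num
      nlinarith [Nat.cast_nonneg (α := ℝ) (c j).card]
    have hltW : ∀ j, iB j = true → iC j = true → ω j * ((c j).card : ℝ) < 1 := by
      intro j h1 h2
      rw [hwW j h1 h2]
      have h1 : ((c j).card : ℝ) ≤ 2 := by exact_mod_cast hc2 j
      linarith
    have hex : ∃ j, ω j * ((c j).card : ℝ) < 1 := by
      cases h1 : iB k.1 with
      | true => exact ⟨k.1, hltW _ h1 hkC⟩
      | false =>
        cases h2 : iC i.1 with
        | true => exact ⟨i.1, hltW _ hiB h2⟩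
        | false =>
          by_cases hub : u ∈ PB
          · -- then `u ∉ PC`
            have huc := PB_PC u hu0 hub
            refine ⟨k.1, ?_⟩
            rw [hwC _ h1]
            have h5 : c k.1 ⊆ {z4} := by
              intro x hx
              have h6 := hcu _ hx
              rw [mem_insert, mem_singleton] at h6
              rcases h6 with h6 | h6
              · rw [mem_singleton]; exact h6
              · exfalso
                have h7 := (mem_filter.1 (hcC _ h1 hx)).1
                rw [h6] at h7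
                exact huc h7
            have h8 := card_le_card h5
            rw [card_singleton] at h8
            have : ((c k.1).card : ℝ) ≤ 1 := by exact_mod_cast h8
            linarith
          · refine ⟨i.1, ?_⟩
            rw [hwB _ h2]
            have h5 : c i.1 ⊆ {z4} := by
              intro x hx
              have h6 := hcu _ hx
              rw [mem_insert, mem_singleton] at h6
              rcases h6 with h6 | h6
              · rw [mem_singleton]; exact h6
              · exfalso
                have h7 := (mem_filter.1 (hcB _ h2 hx)).1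
                rw [h6] at h7
                exact hub h7
            have h8 := card_le_card h5
            rw [card_singleton] at h8
            have : ((c i.1).card : ℝ) ≤ 1 := by exact_mod_cast h8
            linarith
    obtain ⟨j, hj⟩ := hex
    have hfin := sum_lt_sum (s := univ) (fun j _ => hle j) ⟨j, mem_univ _, hj⟩
    exact ⟨hfin.le, fun _ => hfin⟩

end Pool.Agent.L7h19.IT
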