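import Mathlib
import Pool.Agent.L7h19.IT.Stm

/-!
# Project IT: the average of the majorant over the signs, two elementary statements
-/

set_option autoImplicit false

namespace Pool.Agent.L7h19.IT

open Finset Polynomial Pool.Agent.W262.RK

variable {J : Type} [Fintype J] [DecidableEq J]

/-- the average of the majorant over the signs -/
noncomputable def AV (iB iC : J → Bool) (s : J → ℕ) : ℝ :=
  (1 / 2) ^ (PW iB iC s).card * ∑ E ∈ (PW iB iC s).powerset, G3 E (pP iB s) (pP iC s)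

/-- **S_AVA**: `N3 ε m n = 2 ^ ω(m) / 2 ^ ω(n) + R3 ε m n` and `R3 ε m n ≥ 0` (for `ε p = ± 1`:
`R3 ε m n = 2 ^ (-ω(n)) ∑_{e ∣ n, e ≠ 1} ∏_{q ∣ m} (1 + ∏_{p ∣ e} lam ε p q)`), hence
`G3 ≤ (1 + R3) (1 + R3')`. Compare `sum_dvs`, `N1_eq`, `R1_nonneg` in `Pool/Agent/L7h19/IS/Cnt.lean` and
`GG_sq_le` in `Pool/Agent/L7h19/IS/Avg2.lean`. -/
def S_AVA : Prop := ∀ (J : Type) [Fintype J] [DecidableEq J] (iB iC : J → Bool) (z y : ℕ),
  (∀ j, iB j = true ∨ iC j = true) → 2 ≤ z → ∀ s ∈ Tup J z y, ∀ E : Finset ℕ,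
  0 ≤ R3 (eE E) (pP iB s) (pP iC s) ∧ 0 ≤ R3 (eE' E) (pP iC s) (pP iB s) ∧
  G3 E (pP iB s) (pP iC s) ≤ 1 + R3 (eE E) (pP iB s) (pP iC s) + R3 (eE' E) (pP iC s) (pP iB s) +
    R3 (eE E) (pP iB s) (pP iC s) * R3 (eE' E) (pP iC s) (pP iB s)

/-- **S_AVS**: growth of the average. `N3 ε (m m') (n n') ≤ 2 ^ ω(m') N3 ε m n`, hence
`G3 E (m m') (n n') ≤ 4 ^ (ω(m') + ω(n')) G3 E m n` (`N1_mul_le`, `GG_mul_le` in
`Pool/Agent/L7h19/IS/Cnt.lean`, `GR2_sub` in `Avg2.lean`), and `G3 E m n` depends only on the set of the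
`p ∈ E` which divide `m` and `n`. -/
def S_AVS : Prop := ∀ (J : Type) [Fintype J] [DecidableEq J] (iB iC : J → Bool) (z y : ℕ)
  (s e : J → ℕ), (∀ j, iB j = true ∨ iC j = true) → 2 ≤ z → (fun j => s j * e j) ∈ Tup J z y →
  AV iB iC (fun j => s j * e j) ≤ 16 ^ (∑ j, (e j).primeFactors.card) * AV iB iC s

end Pool.Agent.L7h19.IT
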