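import Mathlib
import Pool.Agent.L7h19.IS.Avg
import Pool.Agent.L7h19.IT.CombA
import Pool.Agent.L7h19.IT.CombB
import Pool.Agent.L7h19.IT.Gen
import Pool.Agent.L7h19.IT.Stm2

/-!
# Project IT: the average of the majorant
-/

set_option autoImplicit false
set_option linter.unusedSectionVars false

namespace Pool.Agent.L7h19.IT

open Finset Polynomial Pool.Agent.W262.RK Pool.Agent.L7h19.RP Pool.Agent.L7h19.IS Pool.Agent.W108.RK
open Pool.Agent.H474R2.PG (rho)
open Pool.Agent.L7h19.RP.AT (gm hq BWg)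

variable {J : Type} [Fintype J] [DecidableEq J] {z y : ℕ}

lemma wA_pos (iC : J → Bool) (i : J × (Bool × Bool) × Bool) : 0 < wA iC i ∧ wA iC i ≤ 1 / 2 := by
  unfold wA
  split_ifs <;> norm_num

lemma wB_pos (iB iC : J → Bool) (i : J × (Bool × Bool) × (Bool × Bool)) :
    0 < wB iB iC i ∧ wB iB iC i ≤ 1 / 2 := by
  unfold wB
  split_ifs <;> norm_num

theorem maj3 (hUp : StUp) (hBW : StBW) (hFr : StFree) (hEx : S_EXP3)
    (iB iC : J → Bool) (hBC : ∀ j, iB j = true ∨ iC j = true) (θ : ℕ → ℤ)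
    (hθ : ∀ p, θ p = 1 ∨ θ p = -1) (f : J → ℤ[X]) (hf : ∀ j, Irreducible (f j))
    (hd : ∀ j, 0 < (f j).natDegree) (c : ℕ) :
    ∃ z0 : ℕ, ∀ z, z0 ≤ z → ∃ C : ℝ, ∀ y, z < y →
      ∑ s ∈ Tup J z y, ((1 / 2) ^ (PW iB iC s).card * ∑ E ∈ (PW iB iC s).powerset,
        R3 (fun p => eE E p * θ p) (pP iB s) (pP iC s)) * ∏ j, gm (gaw (f j) 1 c) (s j) ≤
        C * (Real.log y) ^ (Fintype.card J) := by
  classical
  obtain ⟨z0, hz0⟩ := genM hUp hBW hFr f hf hd c (ι := J × (Bool × Bool) × Bool) Prod.fst (wA iC)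
    (wA_pos iC) (fun _ => false) LA LA_self (QA iB iC) ((Fintype.card J : ℕ) : ℝ)
    (Nat.cast_nonneg _) (fun U S hUS hU hQ => combA iB iC U S hUS hU hQ)
  refine ⟨z0 + c + 2, fun z hz => ?_⟩
  obtain ⟨C, hC⟩ := hz0 z (by omega)
  refine ⟨C, fun y hy => ?_⟩
  rw [hEx J iB iC f θ c z y hBC hθ (by omega) (by omega)]
  refine (le_trans (le_of_eq ?_) (le_abs_self _)).trans ((hC y hy).trans (le_of_eq ?_))
  · refine sum_congr ?_ fun d _ => ?_
    · refine filter_congr fun d _ => ?_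
      unfold QA
      constructor
      · rintro ⟨h1, ⟨i, h2, h3⟩⟩
        refine ⟨fun i hi => h1 i (mem_filter.1 hi).2, ⟨i, ?_, h2⟩⟩
        rw [mem_filter]
        exact ⟨mem_univ _, h3⟩
      · rintro ⟨h1, ⟨i, h2, h3⟩⟩
        refine ⟨fun i hi => h1 i (by rw [mem_filter]; exact ⟨mem_univ _, hi⟩),
          ⟨i, h3, (mem_filter.1 h2).2⟩⟩
    · congr 1
      refine prod_congr rfl fun i _ => ?_
      congr 1
      funext p
      unfold sgw
      simp
  · rw [Real.rpow_natCast]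

theorem maj4 (hUp : StUp) (hBW : StBW) (hFr : StFree) (hEx : S_EXP4)
    (iB iC : J → Bool) (hBC : ∀ j, iB j = true ∨ iC j = true)
    (f : J → ℤ[X]) (hf : ∀ j, Irreducible (f j))
    (hd : ∀ j, 0 < (f j).natDegree) (c : ℕ) :
    ∃ z0 : ℕ, ∀ z, z0 ≤ z → ∃ C : ℝ, ∀ y, z < y →
      ∑ s ∈ Tup J z y, ((1 / 2) ^ (PW iB iC s).card * ∑ E ∈ (PW iB iC s).powerset,
        R3 (eE E) (pP iB s) (pP iC s) * R3 (eE' E) (pP iC s) (pP iB s)) *
          ∏ j, gm (gaw (f j) 1 c) (s j) ≤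
        C * (Real.log y) ^ (Fintype.card J) := by
  classical
  obtain ⟨z0, hz0⟩ := genM hUp hBW hFr f hf hd c (ι := J × (Bool × Bool) × (Bool × Bool)) Prod.fst
    (wB iB iC) (wB_pos iB iC) (fun i => decide (i.2 = ((true, true), (true, true)))) LB LB_self
    (Q4 iB iC) ((Fintype.card J : ℕ) : ℝ)
    (Nat.cast_nonneg _) (fun U S hUS hU hQ => combB iB iC U S hUS hU hQ)
  refine ⟨z0 + c + 2, fun z hz => ?_⟩
  obtain ⟨C, hC⟩ := hz0 z (by omega)
  refine ⟨C, fun y hy => ?_⟩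
  rw [hEx J iB iC f c z y hBC (by omega) (by omega)]
  refine (le_trans (le_of_eq ?_) (le_abs_self _)).trans ((hC y hy).trans (le_of_eq ?_))
  · refine sum_congr ?_ fun d _ => ?_
    · refine filter_congr fun d _ => ?_
      unfold Q4
      constructor
      · rintro ⟨h1, ⟨i, h2, h3⟩, ⟨k, h4, h5⟩⟩
        refine ⟨fun i hi => h1 i (mem_filter.1 hi).2, ⟨i, ?_, h2⟩, ⟨k, ?_, h4⟩⟩
        · rw [mem_filter]
          exact ⟨mem_univ _, h3⟩
        · rw [mem_filter]
          exact ⟨mem_univ _, h5⟩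
      · rintro ⟨h1, ⟨i, h2, h3⟩, ⟨k, h4, h5⟩⟩
        refine ⟨fun i hi => h1 i (by rw [mem_filter]; exact ⟨mem_univ _, hi⟩),
          ⟨i, h3, (mem_filter.1 h2).2⟩, ⟨k, h5, (mem_filter.1 h4).2⟩⟩
    · congr 1
      refine prod_congr rfl fun i _ => ?_
      congr 1
      funext p
      unfold sgw bB
      simp only [decide_eq_true_eq]
  · rw [Real.rpow_natCast]

lemma PW_swap (iB iC : J → Bool) (s : J → ℕ) : PW iC iB s = PW iB iC s := by
  unfold PW
  congr 1
  refine prod_congr ?_ fun _ _ => rfl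
  exact filter_congr fun j _ => and_comm

/-- the average over the signs -/
noncomputable def av (P : Finset ℕ) (g : Finset ℕ → ℝ) : ℝ := (1 / 2) ^ P.card * ∑ E ∈ P.powerset, g E

lemma av_mono {P : Finset ℕ} {g h : Finset ℕ → ℝ} (H : ∀ E ∈ P.powerset, g E ≤ h E) :
    av P g ≤ av P h := mul_le_mul_of_nonneg_left (sum_le_sum H) (by positivity)

lemma av_add (P : Finset ℕ) (g h : Finset ℕ → ℝ) : av P (fun E => g E + h E) = av P g + av P h := by
  unfold av
  rw [sum_add_distrib, mul_add]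

lemma av_one (P : Finset ℕ) : av P (fun _ => 1) = 1 := by
  unfold av
  rw [sum_const, card_powerset, nsmul_eq_mul, mul_one]
  push_cast
  rw [← mul_pow]
  norm_num

/-- the function to be averaged -/
noncomputable def GR3 (iB iC : J → Bool) (f : J → ℤ[X]) (s : J → ℕ) : ℝ :=
  ((Rs f s).card : ℝ) * AV iB iC s

lemma G3_nonneg (E : Finset ℕ) (m n : ℕ) : 0 ≤ G3 E m n := by
  unfold G3
  positivity

lemma AV_nonneg (iB iC : J → Bool) (s : J → ℕ) : 0 ≤ AV iB iC s := by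
  unfold AV
  exact mul_nonneg (by positivity) (sum_nonneg fun E _ => G3_nonneg _ _ _)

lemma GR3_nonneg (iB iC : J → Bool) (f : J → ℤ[X]) (s : J → ℕ) : 0 ≤ GR3 iB iC f s :=
  mul_nonneg (Nat.cast_nonneg _) (AV_nonneg _ _ _)

/-- growth -/
lemma GR3_sub (hAS : S_AVS) (iB iC : J → Bool) (hBC : ∀ j, iB j = true ∨ iC j = true)
    (f : J → ℤ[X]) {c : ℕ} (hz : 2 ≤ z)
    (hρ : ∀ p : ℕ, p.Prime → z < p → ∀ j, rho (f j) p ≤ c) {s e : J → ℕ}
    (hse : (fun j => s j * e j) ∈ Tup J z y) :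
    GR3 iB iC f (fun j => s j * e j) ≤
      (16 * c : ℝ) ^ (∑ j, (e j).primeFactors.card) * GR3 iB iC f s := by
  have h0 : ∀ j, s j * e j ≠ 0 := fun j => (sqf_of_mem hse j).ne_zero
  have hs : s ∈ Tup J z y := by
    rw [mem_Tup] at hse ⊢
    refine ⟨fun j => (Dvd.intro _ rfl).trans (hse.1 j), fun i j hij => ?_⟩
    exact ((hse.2 i j hij).coprime_dvd_left (Dvd.intro _ rfl)).coprime_dvd_right (Dvd.intro _ rfl)
  have he : e ∈ Tup J z y := by
    rw [mem_Tup] at hse ⊢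
    refine ⟨fun j => (Dvd.intro_left _ rfl).trans (hse.1 j), fun i j hij => ?_⟩
    exact ((hse.2 i j hij).coprime_dvd_left (Dvd.intro_left _ rfl)).coprime_dvd_right
      (Dvd.intro_left _ rfl)
  have h1 := hAS J iB iC z y s e hBC hz hse
  have h2 : ((Rs f (fun j => s j * e j)).card : ℝ) ≤
      (c : ℝ) ^ (∑ j, (e j).primeFactors.card) * ((Rs f s).card : ℝ) := by
    rw [card_Rs f hse, card_Rs f hs, ← prod_pow_eq_pow_sum, ← prod_mul_distrib]
    refine prod_le_prod (fun j _ => prod_nonneg fun p _ => Nat.cast_nonneg _) fun j _ => ?_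
    have hco : (s j).Coprime (e j) := Nat.coprime_of_squarefree_mul (sqf_of_mem hse j)
    rw [hco.primeFactors_mul, prod_union hco.disjoint_primeFactors, mul_comm]
    refine mul_le_mul_of_nonneg_right ?_ (prod_nonneg fun p _ => Nat.cast_nonneg _)
    rw [← prod_const]
    refine prod_le_prod (fun p _ => Nat.cast_nonneg _) fun p hp => ?_
    have hpp := Nat.prime_of_mem_primeFactors hp
    have hzp : z < p := (dv_prime ((AT.mem_Tup'.1 he).1 j) hpp (Nat.dvd_of_mem_primeFactors hp)).1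
    exact_mod_cast hρ p hpp hzp j
  unfold GR3
  calc _ ≤ ((c : ℝ) ^ (∑ j, (e j).primeFactors.card) * ((Rs f s).card : ℝ)) *
        (16 ^ (∑ j, (e j).primeFactors.card) * AV iB iC s) :=
        mul_le_mul h2 h1 (AV_nonneg _ _ _) (by positivity)
    _ = _ := by
        rw [mul_pow]
        ring

/-- **the average** -/
theorem avg3 (hUp : StUp) (hBW : StBW) (hFr : StFree) (hEx3 : S_EXP3) (hEx4 : S_EXP4)
    (hAA : S_AVA) (iB iC : J → Bool) (hBC : ∀ j, iB j = true ∨ iC j = true)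
    (f : J → ℤ[X]) (hf : ∀ j, Irreducible (f j)) (hd : ∀ j, 0 < (f j).natDegree) (c : ℕ) :
    ∃ z0 : ℕ, ∀ z, z0 ≤ z → ∃ C : ℝ, ∀ y, z < y →
      ∑ s ∈ Tup J z y, GR3 iB iC f s * ∏ j, gw 1 c (s j) ≤
        C * (Real.log y) ^ (Fintype.card J) := by
  obtain ⟨za, ha⟩ := maj0 f hf hd c
  obtain ⟨zb, hb⟩ := maj3 hUp hBW hFr hEx3 iB iC hBC (fun _ => 1) (fun _ => Or.inl rfl) f hf hd c
  obtain ⟨zc, hc⟩ := maj3 hUp hBW hFr hEx3 iC iB (fun j => (hBC j).symm)
    (fun p => jacobiSym (-1) p) (fun p => jacobiSym.eq_one_or_neg_one (by simp)) f hf hd c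
  obtain ⟨zd, hd'⟩ := maj4 hUp hBW hFr hEx4 iB iC hBC f hf hd c
  refine ⟨za + zb + zc + zd + (c + 3), fun z hz => ?_⟩
  obtain ⟨Ca, hCa⟩ := ha z (by omega)
  obtain ⟨Cb, hCb⟩ := hb z (by omega)
  obtain ⟨Cc, hCc⟩ := hc z (by omega)
  obtain ⟨Cd, hCd⟩ := hd' z (by omega)
  refine ⟨Ca + Cb + Cc + Cd, fun y hy => ?_⟩
  have h1 := hCa y hy
  have h2 := hCb y hy
  have h3 := hCc y hy
  have h3' := hCd y hy
  have h4 : ∀ s ∈ Tup J z y, GR3 iB iC f s * ∏ j, gw 1 c (s j) ≤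
      (∏ j, gm (gaw (f j) 1 c) (s j)) +
      ((1 / 2) ^ (PW iB iC s).card * ∑ E ∈ (PW iB iC s).powerset,
        R3 (fun p => eE E p * (fun _ => 1 : ℕ → ℤ) p) (pP iB s) (pP iC s)) *
          ∏ j, gm (gaw (f j) 1 c) (s j) +
      ((1 / 2) ^ (PW iC iB s).card * ∑ E ∈ (PW iC iB s).powerset,
        R3 (fun p => eE E p * (fun p => jacobiSym (-1) p : ℕ → ℤ) p) (pP iC s) (pP iB s)) *
          ∏ j, gm (gaw (f j) 1 c) (s j) +
      ((1 / 2) ^ (PW iB iC s).card * ∑ E ∈ (PW iB iC s).powerset,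
        R3 (eE E) (pP iB s) (pP iC s) * R3 (eE' E) (pP iC s) (pP iB s)) *
        ∏ j, gm (gaw (f j) 1 c) (s j) := by
    intro s hs
    have e1 : GR3 iB iC f s * ∏ j, gw 1 c (s j) =
        AV iB iC s * ∏ j, gm (gaw (f j) 1 c) (s j) := by
      unfold GR3
      rw [card_Rs f hs]
      simp_rw [gm_gaw]
      rw [prod_mul_distrib]
      ring
    have e2 : 0 ≤ ∏ j, gm (gaw (f j) 1 c) (s j) := by
      refine prod_nonneg fun j _ => ?_
      unfold gm
      refine prod_nonneg fun p hp => ?_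
      have hpp := Nat.prime_of_mem_primeFactors hp
      have hzp := (dv_prime ((AT.mem_Tup'.1 hs).1 j) hpp (Nat.dvd_of_mem_primeFactors hp)).1
      unfold gaw
      have h1 : (c : ℝ) < p := by exact_mod_cast (by omega : c < p)
      have h2 : (0 : ℝ) < (p : ℝ) - c := by linarith
      positivity
    have e3 : AV iB iC s ≤ 1 +
        av (PW iB iC s) (fun E => R3 (eE E) (pP iB s) (pP iC s)) +
        av (PW iB iC s) (fun E => R3 (eE' E) (pP iC s) (pP iB s)) +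
        av (PW iB iC s) (fun E => R3 (eE E) (pP iB s) (pP iC s) * R3 (eE' E) (pP iC s) (pP iB s)) := by
      have e5 : AV iB iC s = av (PW iB iC s) (fun E => G3 E (pP iB s) (pP iC s)) := rfl
      rw [e5]
      conv_rhs => rw [← av_one (PW iB iC s)]
      rw [← av_add, ← av_add, ← av_add]
      exact av_mono fun E _ => (hAA J iB iC z y hBC (by omega) s hs E).2.2
    rw [e1]
    have e6 : (1 / 2 : ℝ) ^ (PW iB iC s).card * ∑ E ∈ (PW iB iC s).powerset,
        R3 (fun p => eE E p * (fun _ => 1 : ℕ → ℤ) p) (pP iB s) (pP iC s) =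
        av (PW iB iC s) (fun E => R3 (eE E) (pP iB s) (pP iC s)) := by
      unfold av
      congr 1
      refine sum_congr rfl fun E _ => ?_
      congr 1
      funext p
      simp
    have e7 : (1 / 2 : ℝ) ^ (PW iC iB s).card * ∑ E ∈ (PW iC iB s).powerset,
        R3 (fun p => eE E p * (fun p => jacobiSym (-1) p : ℕ → ℤ) p) (pP iC s) (pP iB s) =
        av (PW iB iC s) (fun E => R3 (eE' E) (pP iC s) (pP iB s)) := by
      rw [PW_swap]
      rfl
    rw [e6, e7]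
    calc _ ≤ (1 + av (PW iB iC s) (fun E => R3 (eE E) (pP iB s) (pP iC s)) +
        av (PW iB iC s) (fun E => R3 (eE' E) (pP iC s) (pP iB s)) +
        av (PW iB iC s) (fun E => R3 (eE E) (pP iB s) (pP iC s) *
          R3 (eE' E) (pP iC s) (pP iB s))) * ∏ j, gm (gaw (f j) 1 c) (s j) :=
          mul_le_mul_of_nonneg_right e3 e2
      _ = _ := by
          unfold av
          ring
  refine (sum_le_sum h4).trans ?_
  rw [sum_add_distrib, sum_add_distrib, sum_add_distrib, add_mul, add_mul, add_mul]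
  linarith

end Pool.Agent.L7h19.IT
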